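import Pool.Agent.R19.QS.Ext

/-! Symbols on the core of a quaternionic structure, and on the subgroups generated by the core and
one more element, are functions of the quaternions. -/

set_option autoImplicit false

namespace Pool.Agent.N88.ETC

open Pool.Agent.H315R3.ETC Pool.Agent.TH673.VG Pool.Agent.R19.QS

/-- the quaternions lie in a group of exponent two in which `q` is additive -/
structure Add (S : QData) {B : Type*} [AddCommGroup B] (β : S.G → S.G → B) : Prop where
  two : ∀ b : B, b + b = 0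
  mul : ∀ a b c, β a (b * c) = β a b + β a c
  eq : ∀ a b c d, β a b = β c d ↔ S.q a b = S.q c d

variable {S : QData} {B : Type*} [AddCommGroup B] {β : S.G → S.G → B}

section
variable (h : IsQuat S) (hB : Add S β)

include hB

lemma b_one (a : S.G) : β a 1 = 0 := by
  have := hB.mul a 1 1
  rw [mul_one] at this
  exact left_eq_add.1 this

include h

lemma b_comm (a b : S.G) : β a b = β b a := (hB.eq _ _ _ _).2 (h.qs2 a b)

lemma b_mul' (a b c : S.G) : β (a * b) c = β a c + β b c := by
  rw [b_comm h hB, hB.mul, b_comm h hB c a, b_comm h hB c b]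

lemma b_zero (a b : S.G) : β a b = 0 ↔ S.q a b = S.zero := by
  rw [← b_one hB a, hB.eq, h.qs3, mul_one]

/-- linkage -/
lemma b_link {a b c d : S.G} (e : β a b = β c d) : ∃ x : S.G, β a b = β a x ∧ β c d = β c x := by
  obtain ⟨x, h1, h2⟩ := h.qs4 a b c d ((hB.eq _ _ _ _).1 e)
  exact ⟨x, (hB.eq _ _ _ _).2 h1, (hB.eq _ _ _ _).2 h2⟩

lemma b_prod {ι : Type*} (A : Finset ι) (c : ι → S.G) (g : S.G) :
    β (∏ i ∈ A, c i) g = ∑ i ∈ A, β (c i) g := by
  classical
  induction A using Finset.induction_on with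
  | empty => rw [Finset.prod_empty, Finset.sum_empty, b_comm h hB, b_one hB]
  | insert i A hi ih => rw [Finset.prod_insert hi, Finset.sum_insert hi, b_mul' h hB, ih]

end

/-- `t` is a quaternion with a slot `c` such that all quaternions with slot `c` are `0` or `t` -/
def Single (S : QData) (β : S.G → S.G → B) (t : B) : Prop :=
  t ≠ 0 ∧ ∃ c : S.G, (∃ g, β c g = t) ∧ ∀ g, β c g = 0 ∨ β c g = t

open Classical in
/-- a chosen slot -/
noncomputable def slot (S : QData) (β : S.G → S.G → B) (t : B) : S.G :=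
  if ht : Single S β t then ht.2.choose else 1

lemma slot_spec {t : B} (ht : Single S β t) :
    (∃ g, β (slot S β t) g = t) ∧ ∀ g, β (slot S β t) g = 0 ∨ β (slot S β t) g = t := by
  have : slot S β t = ht.2.choose := dif_pos ht
  rw [this]
  exact ht.2.choose_spec

/-- a finite set of single quaternions whose subsets with sum zero are trivial -/
def GoodSet (S : QData) (β : S.G → S.G → B) (I : Finset B) : Prop :=
  (∀ t ∈ I, Single S β t) ∧ ∀ J ⊆ I, ∑ t ∈ J, t = 0 → J = ∅ ∨ J = I

open Classical in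
/-- the members of `I` taken at `g` -/
noncomputable def At (S : QData) (β : S.G → S.G → B) (I : Finset B) (g : S.G) : Finset B :=
  I.filter fun t => β (slot S β t) g = t

omit [AddCommGroup B] in
open Classical in
lemma sum_symm {M : Type*} [AddCommGroup M] (hM : ∀ m : M, m + m = 0)
    (X Y : Finset B) (φ : B → M) : ∑ t ∈ symmDiff X Y, φ t = ∑ t ∈ X, φ t + ∑ t ∈ Y, φ t := by
  have e1 : symmDiff X Y = (X \ Y) ∪ (Y \ X) := rfl
  have e2 : ∑ t ∈ X, φ t = ∑ t ∈ X \ Y, φ t + ∑ t ∈ X ∩ Y, φ t := by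
    rw [← Finset.sum_sdiff (Finset.inter_subset_left : X ∩ Y ⊆ X)]
    congr 2
    ext t; simp
  have e3 : ∑ t ∈ Y, φ t = ∑ t ∈ Y \ X, φ t + ∑ t ∈ X ∩ Y, φ t := by
    rw [← Finset.sum_sdiff (Finset.inter_subset_right : X ∩ Y ⊆ Y)]
    congr 2
    ext t; simp
  rw [e1, Finset.sum_union, e2, e3]
  · rw [add_add_add_comm, hM, add_zero]
  · rw [Finset.disjoint_left]
    intro t ht ht'
    rw [Finset.mem_sdiff] at ht ht'
    exact ht.2 ht'.1

section
variable (h : IsQuat S) (hB : Add S β) {I : Finset B} (hI : ∀ t ∈ I, Single S β t)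

include hI in
lemma at_mem {g : S.G} {t : B} (ht : t ∈ I) (htg : t ∉ At S β I g) : β (slot S β t) g = 0 := by
  classical
  rcases (slot_spec (hI t ht)).2 g with e | e
  · exact e
  · exact absurd (by rw [At, Finset.mem_filter]; exact ⟨ht, e⟩) htg

include h hB hI

open Classical in
lemma prod_at {A : Finset B} (hA : A ⊆ I) (g : S.G) :
    β (∏ t ∈ A, slot S β t) g = ∑ t ∈ A ∩ At S β I g, t := by
  rw [b_prod h hB, ← Finset.sum_sdiff (Finset.inter_subset_left : A ∩ At S β I g ⊆ A)]
  rw [Finset.sum_eq_zero, zero_add]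
  · refine Finset.sum_congr rfl fun t ht => ?_
    exact (Finset.mem_filter.1 (Finset.mem_inter.1 ht).2).2
  · intro t ht
    rw [Finset.mem_sdiff, Finset.mem_inter] at ht
    exact at_mem hI (hA ht.1) fun hc => ht.2 ⟨ht.1, hc⟩

omit h in
open Classical in
lemma at_mul (g g' : S.G) : At S β I (g * g') = symmDiff (At S β I g) (At S β I g') := by
  ext t
  by_cases ht : t ∈ I
  · have h0 := (hI t ht).1
    have e : β (slot S β t) (g * g') = β (slot S β t) g + β (slot S β t) g' := hB.mul _ _ _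
    have k : ∀ g : S.G, t ∈ At S β I g ↔ β (slot S β t) g = t := fun g => by
      simp [At, ht]
    rw [Finset.mem_symmDiff, k, k, k, e]
    rcases (slot_spec (hI t ht)).2 g with e1 | e1 <;>
      rcases (slot_spec (hI t ht)).2 g' with e2 | e2 <;> rw [e1, e2]
    · simp [h0.symm]
    · simp [h0.symm]
    · simp [h0.symm]
    · simp [hB.two, h0.symm]
  · have k : ∀ g : S.G, t ∉ At S β I g := fun g hc => ht (Finset.mem_filter.1 hc).1
    rw [Finset.mem_symmDiff]
    exact ⟨fun hc => absurd hc (k _), by rintro (hc | hc) <;> exact absurd hc.1 (k _)⟩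

omit hI in
open Classical in
lemma exists_inter (hG : GoodSet S β I) (g g' : S.G) :
    ∃ z, At S β I z = At S β I g ∩ At S β I g' := by
  obtain ⟨hI, hJ⟩ := hG
  by_cases c1 : At S β I g ⊆ At S β I g'
  · exact ⟨g, (Finset.inter_eq_left.2 c1).symm⟩
  by_cases c2 : At S β I g' ⊆ At S β I g
  · exact ⟨g', (Finset.inter_eq_right.2 c2).symm⟩
  set K := At S β I g ∩ At S β I g' with hK
  have hat : ∀ g, At S β I g ⊆ I := fun g => Finset.filter_subset _ _
  -- the two products
  have key : ∀ g g' : S.G, K = At S β I g ∩ At S β I g' → ¬ At S β I g ⊆ At S β I g' →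
      β (∏ t ∈ I \ (At S β I g \ K), slot S β t) g = ∑ t ∈ K, t ∧
      ∀ z : S.G, β (∏ t ∈ I \ (At S β I g \ K), slot S β t) z = ∑ t ∈ K, t →
        (I \ (At S β I g \ K)) ∩ At S β I z = K := by
    intro g g' hK c1
    set A := I \ (At S β I g \ K) with hA
    have hAI : A ⊆ I := Finset.sdiff_subset
    have hKA : K ⊆ A := by
      intro t ht
      rw [hA, Finset.mem_sdiff, Finset.mem_sdiff]
      exact ⟨hat g (Finset.mem_inter.1 (hK ▸ ht)).1, fun hc => hc.2 ht⟩
    refine ⟨?_, fun z hz => ?_⟩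
    · rw [prod_at h hB hI hAI]
      congr 1
      ext t
      rw [Finset.mem_inter, hA, Finset.mem_sdiff, Finset.mem_sdiff]
      constructor
      · rintro ⟨⟨-, h2⟩, h3⟩
        by_contra hc
        exact h2 ⟨h3, hc⟩
      · intro ht
        exact ⟨⟨hat g (Finset.mem_inter.1 (hK ▸ ht)).1, fun hc => hc.2 ht⟩,
          (Finset.mem_inter.1 (hK ▸ ht)).1⟩
    · rw [prod_at h hB hI hAI] at hz
      have e : ∑ t ∈ symmDiff (A ∩ At S β I z) K, t = 0 := by
        rw [sum_symm hB.two _ _ (fun t => t), hz, hB.two]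
      have hsub : symmDiff (A ∩ At S β I z) K ⊆ A := by
        intro t ht
        rcases Finset.mem_symmDiff.1 ht with h1 | h1
        · exact (Finset.mem_inter.1 h1.1).1
        · exact hKA h1.1
      rcases hJ _ (hsub.trans hAI) e with h1 | h1
      · have h2 : (symmDiff (A ∩ At S β I z) K : Finset B) = ⊥ := h1
        exact symmDiff_eq_bot.1 h2
      · exfalso
        rw [h1] at hsub
        apply c1
        intro t ht
        by_contra hc
        have h3 := hsub (hat g ht)
        rw [hA, Finset.mem_sdiff, Finset.mem_sdiff] at h3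
        refine h3.2 ⟨ht, fun hk => hc ?_⟩
        rw [hK] at hk
        exact (Finset.mem_inter.1 hk).2
  obtain ⟨k1, k2⟩ := key g g' hK c1
  obtain ⟨k3, k4⟩ := key g' g (by rw [hK, Finset.inter_comm]) c2
  obtain ⟨z, hz1, hz2⟩ := b_link h hB (k1.trans k3.symm)
  have e1 := k2 z (by rw [← hz1, k1])
  have e2 := k4 z (by rw [← hz2, k3])
  refine ⟨z, ?_⟩
  ext t
  constructor
  · intro ht
    by_contra hc
    have hn1 : t ∉ I \ (At S β I g \ K) := fun h1 => hc (by
      rw [← e1]; exact Finset.mem_inter.2 ⟨h1, ht⟩)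
    have hn2 : t ∉ I \ (At S β I g' \ K) := fun h1 => hc (by
      rw [← e2]; exact Finset.mem_inter.2 ⟨h1, ht⟩)
    have htI := hat z ht
    have m1 : t ∈ At S β I g \ K := by
      by_contra h1
      exact hn1 (Finset.mem_sdiff.2 ⟨htI, h1⟩)
    have m2 : t ∈ At S β I g' \ K := by
      by_contra h1
      exact hn2 (Finset.mem_sdiff.2 ⟨htI, h1⟩)
    exact hc (Finset.mem_inter.2 ⟨(Finset.mem_sdiff.1 m1).1, (Finset.mem_sdiff.1 m2).1⟩)
  · intro ht
    rw [← e1] at ht
    exact (Finset.mem_inter.1 ht).2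

omit hI in
open Classical in
/-- all members of a good set are taken at one point -/
theorem exists_all (hG : GoodSet S β I) : ∃ z, ∀ t ∈ I, β (slot S β t) z = t := by
  have hI := hG.1
  have key : ∀ K ⊆ I, ∃ z, K ⊆ At S β I z := by
    intro K
    induction K using Finset.induction_on with
    | empty => exact fun _ => ⟨1, Finset.empty_subset _⟩
    | insert t K ht ih =>
      intro hK
      rw [Finset.insert_subset_iff] at hK
      obtain ⟨z, hz⟩ := ih hK.2
      obtain ⟨g, hg⟩ := (slot_spec (hI t hK.1)).1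
      obtain ⟨y, hy⟩ := exists_inter h hB hG z g
      refine ⟨z * g * y, ?_⟩
      rw [at_mul hB hI, at_mul hB hI, hy]
      have hgt : t ∈ At S β I g := Finset.mem_filter.2 ⟨hK.1, hg⟩
      intro s hs
      rw [Finset.mem_insert] at hs
      have h1 : s ∈ At S β I z ∨ s ∈ At S β I g := by
        rcases hs with rfl | hs
        · exact Or.inr hgt
        · exact Or.inl (hz hs)
      simp only [Finset.mem_symmDiff, Finset.mem_inter]
      tauto
  obtain ⟨z, hz⟩ := key I (Finset.Subset.refl _)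
  exact ⟨z, fun t ht => (Finset.mem_filter.1 (hz ht)).2⟩

end

/-- a homomorphism to `Z/2` with prescribed graph -/
theorem exists_hom {B : Type*} [AddCommGroup B] (h2 : ∀ b : B, b + b = 0)
    (R : AddSubgroup (B × ZMod 2)) (hR : ((0 : B), (1 : ZMod 2)) ∉ R) :
    ∃ Φ : B → ZMod 2, (∀ a b, Φ (a + b) = Φ a + Φ b) ∧ ∀ p ∈ R, Φ p.1 = p.2 := by
  have h3 : ∀ x : B × ZMod 2, x + x = 0 := fun x => Prod.ext (h2 _) (CharTwo.add_self_eq_zero _)
  let _ : Module (ZMod 2) (B × ZMod 2) := AddCommGroup.zmodModule (n := 2) (by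
    intro x
    rw [two_nsmul]
    exact h3 x)
  let R' : Submodule (ZMod 2) (B × ZMod 2) := AddSubgroup.toZModSubmodule 2 R
  obtain ⟨f, hf1, hf2⟩ := Submodule.exists_dual_map_eq_bot_of_notMem (p := R')
    (x := ((0 : B), (1 : ZMod 2))) hR inferInstance
  have hf3 : ∀ p ∈ R, f p = 0 := by
    intro p hp
    have : f p ∈ R'.map f := Submodule.mem_map_of_mem hp
    rw [hf2] at this
    exact this
  have h01 : ∀ u : ZMod 2, u ≠ 0 → u = 1 := by decide
  have hf4 := h01 _ hf1
  refine ⟨fun b => f (b, 0), fun a b => ?_, fun p hp => ?_⟩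
  · rw [← map_add]
    simp
  · have e : p = (p.1, 0) + (0, p.2) := by ext <;> simp
    have h5 := hf3 p hp
    rw [e, map_add] at h5
    have h6 : f (0, p.2) = p.2 := by
      rcases (by decide : ∀ u : ZMod 2, u = 0 ∨ u = 1) p.2 with h7 | h7
      · rw [h7]
        exact map_zero f
      · rw [h7, hf4]
    rw [h6] at h5
    have h02 : ∀ u v : ZMod 2, u + v = 0 → u = v := by decide
    exact h02 _ _ h5

/-- the value of a symbol at a single quaternion -/
noncomputable def val (S : QData) (β : S.G → S.G → B) (χ : S.G → S.G → ZMod 2) (t : B) : ZMod 2 := by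
  classical
  exact if ht : ∃ g, β (slot S β t) g = t then χ (slot S β t) ht.choose else 0

section
variable (h : IsQuat S) (hB : Add S β) {H : Subgroup S.G} {χ : S.G → S.G → ZMod 2}
  (hχ : Sy S H χ) (hH : ∀ t, Single S β t → slot S β t ∈ H)

include h hB hχ

lemma sy_b {k g a b : S.G} (hk : k ∈ H) (hg : g ∈ H) (e : β k a = β g b) : χ k a = χ g b :=
  sy_eq h hχ hk hg ((hB.eq _ _ _ _).1 e)

lemma sy_zero {k a : S.G} (hk : k ∈ H) (e : β k a = 0) : χ k a = 0 :=
  hχ.2.2 k hk a ((b_zero h hB _ _).1 e)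

lemma sy_prod {ι : Type*} (A : Finset ι) (c : ι → S.G) (hc : ∀ i ∈ A, c i ∈ H) (g : S.G) :
    χ (∏ i ∈ A, c i) g = ∑ i ∈ A, χ (c i) g := by
  classical
  induction A using Finset.induction_on with
  | empty =>
    rw [Finset.prod_empty, Finset.sum_empty]
    refine sy_zero h hB hχ H.one_mem ?_
    rw [b_comm h hB, b_one hB]
  | insert i A hi ih =>
    rw [Finset.prod_insert hi, Finset.sum_insert hi,
      hχ.1 _ (hc i (Finset.mem_insert_self _ _)) _
        (Subgroup.prod_mem _ fun j hj => hc j (Finset.mem_insert_of_mem hj)),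
      ih fun j hj => hc j (Finset.mem_insert_of_mem hj)]

include hH

lemma val_eq {t : B} (ht : Single S β t) {g : S.G} (hg : β (slot S β t) g = t) :
    χ (slot S β t) g = val S β χ t := by
  have hex : ∃ g, β (slot S β t) g = t := ⟨g, hg⟩
  have e : val S β χ t = χ (slot S β t) hex.choose := dif_pos hex
  rw [e]
  refine sy_b h hB hχ (hH t ht) (hH t ht) ?_
  rw [hg, hex.choose_spec]

/-- a sum of single quaternions taken at one point -/
lemma sum_at {I : Finset B} (hI : ∀ t ∈ I, Single S β t) {z : S.G}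
    (hz : ∀ t ∈ I, β (slot S β t) z = t) :
    β (∏ t ∈ I, slot S β t) z = ∑ t ∈ I, t ∧
      χ (∏ t ∈ I, slot S β t) z = ∑ t ∈ I, val S β χ t := by
  refine ⟨?_, ?_⟩
  · rw [b_prod h hB]
    exact Finset.sum_congr rfl hz
  · rw [sy_prod h hB hχ _ _ fun t ht => hH t (hI t ht)]
    exact Finset.sum_congr rfl fun t ht => val_eq h hB hχ hH (hI t ht) (hz t ht)

/-- relations between single quaternions -/
theorem rel_single : ∀ n : ℕ, ∀ I : Finset B, I.card = n → (∀ t ∈ I, Single S β t) →
    ∑ t ∈ I, t = 0 → ∑ t ∈ I, val S β χ t = 0 := by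
  classical
  intro n
  induction n using Nat.strong_induction_on with
  | _ n ih =>
    intro I hn hI h0
    by_cases hG : GoodSet S β I
    · obtain ⟨z, hz⟩ := exists_all h hB hG
      obtain ⟨e1, e2⟩ := sum_at h hB hχ hH hI hz
      rw [← e2]
      refine sy_zero h hB hχ (Subgroup.prod_mem _ fun t ht => hH t (hI t ht)) ?_
      rw [e1, h0]
    · obtain ⟨J, hJI, hJ0, hJ1, hJ2⟩ : ∃ J ⊆ I, ∑ t ∈ J, t = 0 ∧ J ≠ ∅ ∧ J ≠ I := by
        by_contra hc
        push Not at hc
        refine hG ⟨hI, fun J hJ hJ0 => ?_⟩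
        by_contra hc'
        push Not at hc'
        exact hc'.2 (hc J hJ hJ0 hc'.1)
      have c1 : J.card < n := by
        rw [← hn]
        exact Finset.card_lt_card (Finset.ssubset_iff_subset_ne.2 ⟨hJI, hJ2⟩)
      have c2 : (I \ J).card < n := by
        rw [← hn]
        refine Finset.card_lt_card (Finset.ssubset_iff_subset_ne.2 ⟨Finset.sdiff_subset, ?_⟩)
        intro hc
        apply hJ1
        rw [Finset.sdiff_eq_self_iff_disjoint] at hc
        rw [Finset.eq_empty_iff_forall_notMem]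
        exact fun t ht => (Finset.disjoint_left.1 hc) (hJI ht) ht
      have s1 := Finset.sum_sdiff hJI (f := fun t : B => t)
      rw [hJ0, add_zero, h0] at s1
      rw [← Finset.sum_sdiff hJI, ih _ c2 _ rfl (fun t ht => hI t (Finset.sdiff_subset ht)) s1,
        ih _ c1 _ rfl (fun t ht => hI t (hJI ht)) hJ0, add_zero]

/-- every sum of single quaternions is taken at one point -/
theorem red_single (I : Finset B) (hI : ∀ t ∈ I, Single S β t) :
    ∃ c ∈ H, ∃ z : S.G, β c z = ∑ t ∈ I, t ∧ χ c z = ∑ t ∈ I, val S β χ t := by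
  classical
  obtain ⟨n, hn⟩ : ∃ n, n = I.card := ⟨_, rfl⟩
  induction n using Nat.strong_induction_on generalizing I with
  | _ n ih =>
    by_cases hG : GoodSet S β I
    · obtain ⟨z, hz⟩ := exists_all h hB hG
      obtain ⟨e1, e2⟩ := sum_at h hB hχ hH hI hz
      exact ⟨_, Subgroup.prod_mem _ fun t ht => hH t (hI t ht), z, e1, e2⟩
    · obtain ⟨J, hJI, hJ0, hJ1, hJ2⟩ : ∃ J ⊆ I, ∑ t ∈ J, t = 0 ∧ J ≠ ∅ ∧ J ≠ I := by
        by_contra hc
        push Not at hc
        refine hG ⟨hI, fun J hJ hJ0 => ?_⟩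
        by_contra hc'
        push Not at hc'
        exact hc'.2 (hc J hJ hJ0 hc'.1)
      have c2 : (I \ J).card < n := by
        rw [hn]
        refine Finset.card_lt_card (Finset.ssubset_iff_subset_ne.2 ⟨Finset.sdiff_subset, ?_⟩)
        intro hc
        apply hJ1
        rw [Finset.sdiff_eq_self_iff_disjoint] at hc
        rw [Finset.eq_empty_iff_forall_notMem]
        exact fun t ht => (Finset.disjoint_left.1 hc) (hJI ht) ht
      obtain ⟨c, hc, z, e1, e2⟩ := ih _ c2 (I \ J) (fun t ht => hI t (Finset.sdiff_subset ht)) rfl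
      refine ⟨c, hc, z, ?_, ?_⟩
      · rw [e1, ← Finset.sum_sdiff hJI, hJ0, add_zero]
      · rw [e2, ← Finset.sum_sdiff hJI, rel_single h hB hχ hH _ J rfl (fun t ht => hI t (hJI ht))
          hJ0, add_zero]

end

end Pool.Agent.N88.ETC
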