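import Pool.Agent.N88.ETC.Sixteen
import Pool.Agent.TH673.VG.FieldInd
import Pool.Agent.TH188.ET.FieldSmall

/-! Fields with core of index at most sixteen. -/

set_option autoImplicit false

namespace Pool.Agent.N88.ETC

open Pool.Agent.H315R3.ETC Pool.Agent.TH188.ET Pool.Agent.TH673.VG Pool.Agent.TH188.ETF

universe u

variable {F : Type u} [Field F]

/-- the structure of a field, with values in the Brauer group -/
theorem field_add (h2 : (2 : F) ≠ 0) (hfin : FinSq F) :
    ∃ S : QData, IsStructureOf F S ∧ Finite S.G ∧ IsQuat S ∧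
      (∃ β : S.G → S.G → B2 F, Add S β) ∧
      (fieldCore F).index = (Core S).index ∧
      ((∀ L : Subgroup Fˣ, NormClosed L → 8 ≤ L.index →
        ∃ x : Fˣ, L = fieldCore F ⊔ Subgroup.zpowers x) →
      ∀ H : Subgroup S.G, Closed S H → 8 ≤ H.index →
        ∃ x : S.G, H = Core S ⊔ Subgroup.zpowers x) := by
  obtain ⟨S, hS, hSfin, hSq⟩ := exists_structure h2 hfin
  obtain ⟨φ, hs, hk, hn, h0, hq⟩ := id hS
  have hz : ∀ a b : Fˣ, S.q (φ a) (φ b) = S.zero ↔ NormFrom a b := by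
    intro a b
    rw [← qiso_one h2, ← h0, ← map_one φ]
    exact hq a b 1 1
  have hi := core_index h2 hs hk hSfin hz
  have hcore := core_comap h2 hs hk hSfin hz
  refine ⟨S, hS, hSfin, hSq, ?_, hi, ?_⟩
  · have hinv : ∀ a b a' b' : Fˣ, φ a = φ a' → φ b = φ b' → bq h2 a b = bq h2 a' b' := by
      intro a b a' b' h1 h3
      rw [bq_eq_iff]
      exact qiso_of_phi h2 hk h1 h3
    choose r hr using hs
    refine ⟨fun g h => bq h2 (r g) (r h), B2_add_self, ?_, ?_⟩
    · intro g h k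
      show bq h2 (r g) (r (h * k)) = bq h2 (r g) (r h) + bq h2 (r g) (r k)
      rw [← bq_mul]
      apply hinv _ _ _ _ rfl
      rw [map_mul, hr, hr, hr]
    · intro g h k l
      show bq h2 (r g) (r h) = bq h2 (r k) (r l) ↔ _
      rw [bq_eq_iff]
      have := hq (r g) (r h) (r k) (r l)
      rw [hr, hr, hr, hr] at this
      exact this.symm
  · intro hL H hH h8
    have hcl : NormClosed (H.comap φ) := by
      obtain ⟨h1, h3⟩ := hH
      exact ⟨fun a ha => h1 _ ((index_two_iff hs hk hSfin hz a).1 ha),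
        fun a ha => h3 _ ((sup_iff hs hk hz a H).1 ha)⟩
    obtain ⟨x, hx⟩ := hL _ hcl (by rwa [Subgroup.index_comap_of_surjective _ hs])
    refine ⟨φ x, ?_⟩
    have e := congrArg (Subgroup.map φ) hx
    rw [Subgroup.map_comap_eq_self_of_surjective hs, Subgroup.map_sup, hcore,
      Subgroup.map_comap_eq_self_of_surjective hs, MonoidHom.map_zpowers] at e
    exact e

theorem field_sixteen (h2 : (2 : F) ≠ 0) (hfin : FinSq F) (hi : (fieldCore F).index ≤ 16) :
    ∃ S : QData, Elem S ∧ IsStructureOf F S := by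
  obtain ⟨S, hS, hSfin, hSq, ⟨β, hβ⟩, hc, -⟩ := field_add h2 hfin
  exact ⟨S, elem_of_sixteen hSq hβ (hc ▸ hi), hS⟩

theorem field_gen (h2 : (2 : F) ≠ 0) (hfin : FinSq F)
    (hL : ∀ L : Subgroup Fˣ, NormClosed L → 8 ≤ L.index →
        ∃ x : Fˣ, L = fieldCore F ⊔ Subgroup.zpowers x) :
    ∃ S : QData, Elem S ∧ IsStructureOf F S := by
  obtain ⟨S, hS, hSfin, hSq, ⟨β, hβ⟩, -, hg⟩ := field_add h2 hfin
  exact ⟨S, elem_of_gen hSq hβ (hg hL), hS⟩

end Pool.Agent.N88.ETC
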