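import Pool.Agent.N88.ETC.Core

/-! Structures with core of index at most sixteen. -/

set_option autoImplicit false

namespace Pool.Agent.N88.ETC

open Pool.Agent.H315R3.ETC Pool.Agent.TH673.VG Pool.Agent.R19.QS

variable {S : QData} {B : Type*} [AddCommGroup B] {β : S.G → S.G → B}

/-- the core is closed -/
lemma closed_core (S : QData) : Closed S (Core S) := by
  refine ⟨fun a ha => ?_, fun a ha => ?_⟩
  · refine Subgroup.mem_sInf.2 fun L hL => hL.1 a ha
  · refine Subgroup.mem_sInf.2 fun L hL => hL.2 a fun x => ?_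
    obtain ⟨v, k, hv, hk, e⟩ := ha x
    exact ⟨v, k, hv, Subgroup.mem_sInf.1 hk L hL, e⟩

section
variable (h : IsQuat S) (hB : Add S β)

include h hB

lemma indexTwo_iff (a : S.G) (g : S.G) (ha : IndexTwo S a) (hg : β a g ≠ 0) :
    Single S β (β a g) := by
  refine ⟨hg, a, ⟨g, rfl⟩, fun g' => ?_⟩
  rcases ha g g' with e | e | e
  · exact absurd ((b_zero h hB _ _).2 e) hg
  · exact Or.inl ((b_zero h hB _ _).2 e)
  · right
    have e1 := (b_zero h hB _ _).2 e
    rw [hB.mul] at e1
    have e2 := hB.two (β a g)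
    exact add_left_cancel (e1.trans e2.symm)

lemma slot_core {t : B} (ht : Single S β t) : slot S β t ∈ Core S := by
  refine (closed_core S).1 _ fun x y => ?_
  rcases (slot_spec ht).2 x with e1 | e1
  · exact Or.inl ((b_zero h hB _ _).1 e1)
  rcases (slot_spec ht).2 y with e2 | e2
  · exact Or.inr (Or.inl ((b_zero h hB _ _).1 e2))
  refine Or.inr (Or.inr ((b_zero h hB _ _).1 ?_))
  rw [hB.mul, e1, e2, hB.two]

end

/-- the graph of a symbol on the single quaternions -/
noncomputable def graph (hB : Add S β) (χ : S.G → S.G → ZMod 2) :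
    AddSubgroup (B × ZMod 2) where
  carrier := {p | ∃ I : Finset B, (∀ t ∈ I, Single S β t) ∧ p.1 = ∑ t ∈ I, t ∧
    p.2 = ∑ t ∈ I, val S β χ t}
  zero_mem' := ⟨∅, by simp, by simp, by simp⟩
  add_mem' := by
    classical
    rintro p p' ⟨I, hI, e1, e2⟩ ⟨J, hJ, e3, e4⟩
    refine ⟨symmDiff I J, fun t ht => ?_, ?_, ?_⟩
    · rcases Finset.mem_symmDiff.1 ht with h1 | h1
      · exact hI t h1.1
      · exact hJ t h1.1
    · rw [sum_symm hB.two, Prod.fst_add, e1, e3]
    · rw [sum_symm (fun m : ZMod 2 => CharTwo.add_self_eq_zero m), Prod.snd_add, e2, e4]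
  neg_mem' := by
    rintro p ⟨I, hI, e1, e2⟩
    refine ⟨I, hI, ?_, ?_⟩
    · rw [Prod.fst_neg, ← e1, neg_eq_iff_add_eq_zero, hB.two]
    · rw [Prod.snd_neg, ← e2, neg_eq_iff_add_eq_zero, CharTwo.add_self_eq_zero]

section
variable (h : IsQuat S) (hB : Add S β) {H : Subgroup S.G} {χ : S.G → S.G → ZMod 2}
  (hχ : Sy S H χ) (hC : Core S ≤ H)

include h hB hχ hC

/-- symbols on the core are functions of the quaternions -/
theorem core_graph (c : S.G) (hc : c ∈ Core S) (g : S.G) : (β c g, χ c g) ∈ graph hB χ := by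
  have hcl := closed_core S
  have hH : ∀ t, Single S β t → slot S β t ∈ H := fun t ht => hC (slot_core h hB ht)
  let L : Subgroup S.G :=
    { carrier := {c | c ∈ Core S ∧ ∀ g, (β c g, χ c g) ∈ graph hB χ}
      one_mem' := by
        refine ⟨(Core S).one_mem, fun g => ?_⟩
        have e1 : β 1 g = 0 := by rw [b_comm h hB, b_one hB]
        rw [e1, sy_zero h hB hχ H.one_mem e1]
        exact (graph hB χ).zero_mem
      mul_mem' := by
        rintro c d ⟨hc, hc'⟩ ⟨hd, hd'⟩
        refine ⟨(Core S).mul_mem hc hd, fun g => ?_⟩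
        rw [b_mul' h hB, hχ.1 c (hC hc) d (hC hd)]
        exact (graph hB χ).add_mem (hc' g) (hd' g)
      inv_mem' := by
        rintro c hc
        have e : c⁻¹ = c := inv_eq_of_mul_eq_one_left (h.exp2 c)
        rw [e]
        exact hc }
  have hL : Closed S L := by
    refine ⟨fun a ha => ⟨hcl.1 a ha, fun g => ?_⟩, fun a ha => ?_⟩
    · have haH : a ∈ H := hC (hcl.1 a ha)
      by_cases h0 : β a g = 0
      · rw [h0, sy_zero h hB hχ haH h0]
        exact (graph hB χ).zero_mem
      · have hs := indexTwo_iff h hB a g ha h0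
        obtain ⟨g', hg'⟩ := (slot_spec hs).1
        refine ⟨{β a g}, fun t ht => ?_, by simp, ?_⟩
        · rw [Finset.mem_singleton] at ht
          rw [ht]; exact hs
        · rw [Finset.sum_singleton, ← val_eq h hB hχ hH hs hg']
          exact sy_b h hB hχ haH (hH _ hs) hg'.symm
    · have haC : a ∈ Core S := hcl.2 a fun x => by
        obtain ⟨v, k, hv, hk, e⟩ := ha x
        exact ⟨v, k, hv, hk.1, e⟩
      refine ⟨haC, fun g => ?_⟩
      obtain ⟨v, k, hv, hk, rfl⟩ := ha g
      have e1 : β a (v * k) = β k a := by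
        rw [hB.mul, (b_zero h hB _ _).2 hv, zero_add, b_comm h hB]
      have e2 : χ a (v * k) = χ k a := by
        rw [hχ.2.1 a (hC haC), sy_zero h hB hχ (hC haC) ((b_zero h hB _ _).2 hv), zero_add]
        exact sy_b h hB hχ (hC haC) (hC hk.1) (b_comm h hB _ _)
      rw [e1, e2]
      exact hk.2 a
  have hle : Core S ≤ L := sInf_le hL
  exact (hle hc).2 g

/-- a sum of single quaternions is a quaternion with a slot in the core -/
lemma graph_at {p : B × ZMod 2} (hp : p ∈ graph hB χ) :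
    ∃ c ∈ H, ∃ z : S.G, β c z = p.1 ∧ χ c z = p.2 := by
  have hH : ∀ t, Single S β t → slot S β t ∈ H := fun t ht => hC (slot_core h hB ht)
  obtain ⟨I, hI, e1, e2⟩ := hp
  obtain ⟨c, hc, z, h1, h2⟩ := red_single h hB hχ hH I hI
  exact ⟨c, hc, z, by rw [h1, e1], by rw [h2, e2]⟩

/-- symbols on the subgroup generated by the core and one element are functions of the
quaternions -/
theorem exists_fun (x : S.G) (hHx : H = Core S ⊔ Subgroup.zpowers x) :
    ∃ Φ : B → ZMod 2, (∀ a b, Φ (a + b) = Φ a + Φ b) ∧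
      ∀ y ∈ H, ∀ g, χ y g = Φ (β y g) := by
  have hx : x ∈ H := by
    rw [hHx]
    exact (le_sup_right : _ ≤ Core S ⊔ Subgroup.zpowers x) (Subgroup.mem_zpowers x)
  let R : AddSubgroup (B × ZMod 2) :=
    { carrier := {p | ∃ r ∈ graph hB χ, ∃ g : S.G, p = r + (β x g, χ x g)}
      zero_mem' := by
        refine ⟨0, (graph hB χ).zero_mem, 1, ?_⟩
        rw [b_one hB, sy_zero h hB hχ hx (b_one hB x), zero_add]
        rfl
      add_mem' := by
        rintro p p' ⟨r, hr, g, rfl⟩ ⟨r', hr', g', rfl⟩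
        refine ⟨r + r', (graph hB χ).add_mem hr hr', g * g', ?_⟩
        rw [hB.mul, hχ.2.1 x hx]
        rw [add_add_add_comm]
        rfl
      neg_mem' := by
        rintro p ⟨r, hr, g, rfl⟩
        refine ⟨-r, (graph hB χ).neg_mem hr, g, ?_⟩
        rw [neg_add]
        congr 1
        ext
        · exact neg_eq_iff_add_eq_zero.2 (hB.two _)
        · exact neg_eq_iff_add_eq_zero.2 (CharTwo.add_self_eq_zero _) }
  have hR : ((0 : B), (1 : ZMod 2)) ∉ R := by
    rintro ⟨r, hr, g, e⟩
    obtain ⟨c, hc, z, e1, e2⟩ := graph_at h hB hχ hC hr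
    have e3 : (0 : B) = r.1 + β x g := congrArg Prod.fst e
    have e4 : (1 : ZMod 2) = r.2 + χ x g := congrArg Prod.snd e
    have e5 : β c z = β x g := by
      rw [e1]
      have := hB.two (β x g)
      exact add_right_cancel (e3.symm.trans this.symm)
    have e6 := sy_b h hB hχ hc hx e5
    rw [← e2, e6, CharTwo.add_self_eq_zero] at e4
    exact one_ne_zero e4
  obtain ⟨Φ, h1, h2⟩ := exists_hom hB.two R hR
  refine ⟨Φ, h1, ?_⟩
  let M : Subgroup S.G :=
    { carrier := {y | y ∈ H ∧ ∀ g, (β y g, χ y g) ∈ R}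
      one_mem' := by
        refine ⟨H.one_mem, fun g => ?_⟩
        have e1 : β 1 g = 0 := by rw [b_comm h hB, b_one hB]
        rw [e1, sy_zero h hB hχ H.one_mem e1]
        exact R.zero_mem
      mul_mem' := by
        rintro c d ⟨hc, hc'⟩ ⟨hd, hd'⟩
        refine ⟨H.mul_mem hc hd, fun g => ?_⟩
        rw [b_mul' h hB, hχ.1 c hc d hd]
        exact R.add_mem (hc' g) (hd' g)
      inv_mem' := by
        rintro c hc
        have e : c⁻¹ = c := inv_eq_of_mul_eq_one_left (h.exp2 c)
        rw [e]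
        exact hc }
  have hM : H ≤ M := by
    conv_lhs => rw [hHx]
    rw [sup_le_iff, Subgroup.zpowers_le]
    refine ⟨fun c hc => ⟨hC hc, fun g => ⟨_, core_graph h hB hχ hC c hc g, 1, ?_⟩⟩,
      hx, fun g => ⟨0, (graph hB χ).zero_mem, g, ?_⟩⟩
    · rw [b_one hB, sy_zero h hB hχ hx (b_one hB x)]
      simp
    · rw [zero_add]
  intro y hy g
  exact (h2 _ ((hM hy).2 g)).symm

end

section
variable (h : IsQuat S) (hB : Add S β)

include h hB

/-- symbols which are functions of the quaternions extend -/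
theorem canExt_of_fun {H : Subgroup S.G} (hne : ∃ b : S.G, b ∉ H)
    (hf : ∀ χ : S.G → S.G → ZMod 2, Sy S H χ → ∃ Φ : B → ZMod 2,
      (∀ a b, Φ (a + b) = Φ a + Φ b) ∧ ∀ y ∈ H, ∀ g, χ y g = Φ (β y g)) : CanExt S H := by
  intro χ hχ
  obtain ⟨a, ha⟩ := hne
  obtain ⟨Φ, h1, h2⟩ := hf χ hχ
  refine ⟨a, ha, extend_of_hom h H χ hχ a ha (fun b => Φ (β a b)) (fun x y => ?_)
    fun g hg b hb => ?_⟩
  · show Φ (β a (x * y)) = _
    rw [hB.mul, h1]
  · show Φ (β a b) = χ g b
    rw [h2 g hg]
    congr 1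
    have e := (b_zero h hB _ _).2 hb
    rw [b_mul' h hB] at e
    exact add_right_cancel (e.trans (hB.two (β g b)).symm)

theorem canExt_of_one {H : Subgroup S.G} (hne : ∃ b : S.G, b ∉ H) (x : S.G)
    (hHx : H = Core S ⊔ Subgroup.zpowers x) : CanExt S H :=
  canExt_of_fun h hB hne fun _ hχ => exists_fun h hB hχ (hHx ▸ le_sup_left) x hHx

variable [Finite S.G]

/-- every closed subgroup of index at least eight is generated by the core and one element -/
theorem elem_of_gen (hM : ∀ H : Subgroup S.G, Closed S H → 8 ≤ H.index →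
    ∃ x : S.G, H = Core S ⊔ Subgroup.zpowers x) : Elem S := by
  refine elem_of_closed h fun H hcl hi => ?_
  obtain ⟨x, hx⟩ := hM H hcl hi
  exact canExt_of_one h hB (exists_out hi) x hx

/-- core of index at most sixteen -/
theorem elem_of_sixteen (hi : (Core S).index ≤ 16) : Elem S := by
  refine elem_of_gen h hB fun H hcl h8 => ?_
  have hle : Core S ≤ H := sInf_le hcl
  by_cases he : Core S = H
  · exact ⟨1, by rw [Subgroup.zpowers_one_eq_bot, sup_bot_eq, he]⟩
  obtain ⟨x, hx, hxC⟩ : ∃ x ∈ H, x ∉ Core S := by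
    by_contra hc
    push Not at hc
    exact he (le_antisymm hle hc)
  have hlt : Core S < Core S ⊔ Subgroup.zpowers x := lt_sup_zpowers hxC
  have hle2 : Core S ⊔ Subgroup.zpowers x ≤ H := sup_le hle (by rwa [Subgroup.zpowers_le])
  refine ⟨x, ?_⟩
  by_contra hne
  have h1 := two_mul_index hlt
  have h2 := two_mul_index (lt_of_le_of_ne hle2 (fun e => hne e.symm))
  omega

end

end Pool.Agent.N88.ETC
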